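import Pool.Agent.H73.OX.LAS
import Pool.Agent.H49.SDP.High

/-!
# Lasserre positivity in the form of the SDP core (helper73, MP_c62aed_lc)
-/

namespace Pool.Agent.H73.OX

open Finset Pool.Agent.H1.LP Pool.Agent.H96.KX Pool.Agent.H49.SDP

/-- positivity on squares of combinations of product basis functions of level less than `t` -/
theorem las_basis (p B d : ℕ) [Fact p.Prime] (S : Loc p B d) (t : ℕ) (ht : 2 * (t - 1) ≤ d)
    {J : Type} [Fintype J] [DecidableEq J] (Φ : Bas (ZMod p) J) (c : (Fin B → J) → ℝ)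
    (hc : ∀ κ, t ≤ lv Φ κ → c κ = 0) :
    0 ≤ ∑ z, PDz S z * (∑ κ, c κ * ∏ i, Φ.φ (κ i) (z i)) ^ 2 := by
  refine las p B d S t ht (fun z => ∑ κ, c κ * ∏ i, Φ.φ (κ i) (z i)) ?_
  have h1 : (fun z : Fin B → ZMod p => ∑ κ, c κ * ∏ i, Φ.φ (κ i) (z i)) =
      ∑ κ, c κ • (fun z : Fin B → ZMod p => ∏ i, Φ.φ (κ i) (z i)) := by
    funext z
    rw [Finset.sum_apply]
    rfl
  unfold Low
  rw [h1]
  refine Submodule.sum_mem _ fun κ _ => ?_
  by_cases h : t ≤ lv Φ κ
  · rw [hc κ h, zero_smul]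
    exact Submodule.zero_mem _
  · refine Submodule.smul_mem _ _ (Submodule.subset_span ?_)
    refine ⟨univ.filter (fun i => κ i ≠ Φ.o), not_le.mp h, ?_⟩
    intro z z' hz
    refine Finset.prod_congr rfl fun i _ => ?_
    by_cases hi : κ i = Φ.o
    · rw [hi, Φ.one, Φ.one]
    · rw [hz i (by simp [hi])]

end Pool.Agent.H73.OX
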