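import Pool.Agent.H96.KX.Targets

/-!
# Lasserre positivity of the pseudo-density of a local system (helper73, MP_c62aed_lc)
-/

namespace Pool.Agent.H73.OX

open Finset Pool.Agent.H1.LP Pool.Agent.H96.KX

/-- real functions of block degree less than `t`: linear combinations of functions which depend on
fewer than `t` coordinates -/
def Low {B : ℕ} {Z : Type} (t : ℕ) (q : (Fin B → Z) → ℝ) : Prop :=
  q ∈ Submodule.span ℝ {f : (Fin B → Z) → ℝ | ∃ T : Finset (Fin B), T.card < t ∧
    ∀ z z', (∀ i ∈ T, z i = z' i) → f z = f z'}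

section

variable {p B : ℕ} [hp : Fact p.Prime]

/-- the character of `l` -/
noncomputable def ch (l z : Fin B → ZMod p) : ℂ := ZMod.stdAddChar (ip l z)

theorem ip_add_left (l l' z : Fin B → ZMod p) : ip (l + l') z = ip l z + ip l' z := by
  simp only [ip, Pi.add_apply, add_mul, sum_add_distrib]

theorem ip_add_right (l z z' : Fin B → ZMod p) : ip l (z + z') = ip l z + ip l z' := by
  simp only [ip, Pi.add_apply, mul_add, sum_add_distrib]

theorem ip_neg_left (l z : Fin B → ZMod p) : ip (-l) z = -ip l z := by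
  simp only [ip, Pi.neg_apply, neg_mul, sum_neg_distrib]

theorem ip_comm (l z : Fin B → ZMod p) : ip l z = ip z l := by
  simp only [ip, mul_comm]

theorem ip_zero_right (l : Fin B → ZMod p) : ip l 0 = 0 := by
  simp [ip]

/-- `ip l` as an additive homomorphism -/
noncomputable def ipH (l : Fin B → ZMod p) : (Fin B → ZMod p) →+ ZMod p where
  toFun := ip l
  map_zero' := ip_zero_right l
  map_add' := ip_add_right l

theorem ip_single (l : Fin B → ZMod p) (i : Fin B) (v : ZMod p) :
    ip l (Pi.single i v) = l i * v := by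
  unfold ip
  rw [Finset.sum_eq_single i]
  · simp
  · intro j _ hj
    simp [Pi.single_eq_of_ne hj]
  · simp

theorem ch_add_left (l l' z : Fin B → ZMod p) : ch (l + l') z = ch l z * ch l' z := by
  simp only [ch, ip_add_left, AddChar.map_add_eq_mul]

theorem ch_add_right (l z z' : Fin B → ZMod p) : ch l (z + z') = ch l z * ch l z' := by
  simp only [ch, ip_add_right, AddChar.map_add_eq_mul]

theorem conj_std (v : ZMod p) :
    (starRingEnd ℂ) (ZMod.stdAddChar v) = ZMod.stdAddChar (-v) := by
  rw [AddChar.map_neg_eq_conj]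

theorem conj_ch (l z : Fin B → ZMod p) : (starRingEnd ℂ) (ch l z) = ch (-l) z := by
  simp only [ch, ip_neg_left, conj_std]

theorem std_ne (v : ZMod p) (hv : v ≠ 0) : (ZMod.stdAddChar v : ℂ) ≠ 1 := by
  intro h
  apply hv
  have h1 := ZMod.injective_stdAddChar (N := p)
  apply h1
  rw [h, AddChar.map_zero_eq_one]

theorem sum_ch (l : Fin B → ZMod p) :
    ∑ z, ch l z = if l = 0 then (p : ℂ) ^ B else 0 := by
  by_cases h : l = 0
  · subst h
    simp [ch, ip, ZMod.card]
  · rw [if_neg h]
    obtain ⟨i, hi⟩ : ∃ i, l i ≠ 0 := by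
      by_contra hc
      push Not at hc
      exact h (funext hc)
    have h1 : ∑ z, ch l z = ch l (Pi.single i 1) * ∑ z, ch l z := by
      rw [mul_sum]
      rw [← Equiv.sum_comp (Equiv.addRight (Pi.single i (1 : ZMod p)))]
      refine sum_congr rfl fun z _ => ?_
      rw [Equiv.coe_addRight, ch_add_right, mul_comm]
    have h2 : ch l (Pi.single i 1) ≠ 1 := by
      unfold ch
      rw [ip_single, mul_one]
      exact std_ne _ hi
    have h3 : (ch l (Pi.single i 1) - 1) * ∑ z, ch l z = 0 := by
      rw [sub_mul, one_mul, ← h1, sub_self]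
    rcases mul_eq_zero.mp h3 with h4 | h4
    · exact absurd (sub_eq_zero.mp h4) h2
    · exact h4

/-- a function of few coordinates is a combination of characters of small support -/
theorem low_mem (t : ℕ) (f : (Fin B → ZMod p) → ℝ) (T : Finset (Fin B)) (hT : T.card < t)
    (hf : ∀ z z', (∀ i ∈ T, z i = z' i) → f z = f z') :
    ∃ c : (Fin B → ZMod p) → ℂ, (∀ l, c l ≠ 0 → (supp l).card < t) ∧
      ∀ z, ((f z : ℝ) : ℂ) = ∑ l, c l * ch l z := by
  have hpB : ((p : ℂ) ^ B) ≠ 0 := pow_ne_zero _ (Nat.cast_ne_zero.mpr hp.out.ne_zero)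
  refine ⟨fun l => ((p : ℂ) ^ B)⁻¹ * ∑ z, (f z : ℂ) * ch (-l) z, ?_, ?_⟩
  · intro l hl
    have hsub : supp l ⊆ T := by
      intro i hi
      by_contra hiT
      apply hl
      have hli : l i ≠ 0 := by simpa [supp] using hi
      have h1 : ∑ z, (f z : ℂ) * ch (-l) z =
          ch (-l) (Pi.single i 1) * ∑ z, (f z : ℂ) * ch (-l) z := by
        rw [mul_sum]
        rw [← Equiv.sum_comp (Equiv.addRight (Pi.single i (1 : ZMod p)))]
        refine sum_congr rfl fun z _ => ?_
        have hfz : f (z + Pi.single i 1) = f z := by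
          apply hf
          intro j hj
          have hji : j ≠ i := by rintro rfl; exact hiT hj
          simp [Pi.single_eq_of_ne hji]
        rw [Equiv.coe_addRight, hfz, ch_add_right]
        ring
      have h2 : ch (-l) (Pi.single i 1) ≠ 1 := by
        unfold ch
        rw [ip_single, mul_one]
        exact std_ne _ (by simpa using hli)
      have h3 : (ch (-l) (Pi.single i 1) - 1) * ∑ z, (f z : ℂ) * ch (-l) z = 0 := by
        rw [sub_mul, one_mul, ← h1, sub_self]
      rcases mul_eq_zero.mp h3 with h4 | h4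
      · exact absurd (sub_eq_zero.mp h4) h2
      · simp only [h4, mul_zero]
    exact lt_of_le_of_lt (card_le_card hsub) hT
  · intro z
    have h1 : ∀ w : Fin B → ZMod p, ∑ l : Fin B → ZMod p, ch (-l) w * ch l z =
        if w = z then (p : ℂ) ^ B else 0 := by
      intro w
      have h2 : ∀ l : Fin B → ZMod p, ch (-l) w * ch l z = ch (z - w) l := by
        intro l
        unfold ch
        rw [← AddChar.map_add_eq_mul, ip_neg_left, ip_comm (z - w) l]
        congr 1
        have : ip l z = ip l (z - w) + ip l w := by rw [← ip_add_right, sub_add_cancel]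
        rw [this]
        ring
      simp only [h2]
      rw [sum_ch]
      by_cases hw : w = z
      · simp [hw]
      · have : z - w ≠ 0 := fun h => hw (sub_eq_zero.mp h).symm
        simp [hw, this]
    calc ((f z : ℝ) : ℂ) = ((p : ℂ) ^ B)⁻¹ * ∑ w, (f w : ℂ) * (if w = z then (p : ℂ) ^ B else 0) := by
          simp only [mul_ite, mul_zero, sum_ite_eq', mem_univ, if_true]
          field_simp
      _ = ((p : ℂ) ^ B)⁻¹ * ∑ w, (f w : ℂ) * ∑ l : Fin B → ZMod p, ch (-l) w * ch l z := by
          simp only [h1]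
      _ = ∑ l, (((p : ℂ) ^ B)⁻¹ * ∑ w, (f w : ℂ) * ch (-l) w) * ch l z := by
          simp only [mul_sum, sum_mul]
          rw [sum_comm]
          refine sum_congr rfl fun l _ => sum_congr rfl fun w _ => ?_
          ring

theorem low_fourier (t : ℕ) (q : (Fin B → ZMod p) → ℝ) (hq : Low t q) :
    ∃ c : (Fin B → ZMod p) → ℂ, (∀ l, c l ≠ 0 → (supp l).card < t) ∧
      ∀ z, ((q z : ℝ) : ℂ) = ∑ l, c l * ch l z := by
  unfold Low at hq
  induction hq using Submodule.span_induction with
  | mem f hf =>
    obtain ⟨T, hT, hf⟩ := hf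
    exact low_mem t f T hT hf
  | zero => exact ⟨0, by simp, by simp⟩
  | add f g _ _ h1 h2 =>
    obtain ⟨c, hc, hc2⟩ := h1
    obtain ⟨c', hc', hc2'⟩ := h2
    refine ⟨c + c', ?_, ?_⟩
    · intro l hl
      by_cases h : c l = 0
      · apply hc'
        intro h'
        exact hl (by simp [h, h'])
      · exact hc l h
    · intro z
      simp only [Pi.add_apply, Complex.ofReal_add, hc2, hc2', add_mul, sum_add_distrib]
  | smul r f _ h1 =>
    obtain ⟨c, hc, hc2⟩ := h1
    refine ⟨fun l => (r : ℂ) * c l, ?_, ?_⟩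
    · intro l hl
      apply hc
      intro h
      exact hl (by simp [h])
    · intro z
      simp only [Pi.smul_apply, smul_eq_mul, Complex.ofReal_mul, hc2, mul_sum, mul_assoc]

/-- sums over an equivalence relation with a phase are nonnegative -/
theorem cocycle_nonneg {ι : Type*} (V : Finset ι) (r : ι → ι → Prop) [DecidableRel r]
    (c : ι → ℂ) (u : ι → ι → ℂ)
    (hr : ∀ x ∈ V, r x x) (hs : ∀ x ∈ V, ∀ y ∈ V, r x y → r y x)
    (ht : ∀ x ∈ V, ∀ y ∈ V, ∀ z ∈ V, r x y → r y z → r x z)
    (hu : ∀ x ∈ V, ∀ y ∈ V, ∀ z ∈ V, r x z → r y z → u x y = u x z * (starRingEnd ℂ) (u y z)) :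
    0 ≤ (∑ x ∈ V, ∑ y ∈ V, if r x y then c x * (starRingEnd ℂ) (c y) * u x y else 0).re := by
  have hn : ∀ x ∈ V, (0 : ℝ) < ((V.filter (fun y => r y x)).card : ℝ) := by
    intro x hx
    have : 0 < (V.filter (fun y => r y x)).card := card_pos.mpr ⟨x, by simp [hx, hr x hx]⟩
    exact_mod_cast this
  have hcard : ∀ x ∈ V, ∀ z ∈ V, r z x →
      (V.filter (fun y => r y z)).card = (V.filter (fun y => r y x)).card := by
    intro x hx z hz hzx
    congr 1
    ext y
    simp only [mem_filter]
    constructor
    · rintro ⟨hy, h⟩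
      exact ⟨hy, ht y hy z hz x hx h hzx⟩
    · rintro ⟨hy, h⟩
      exact ⟨hy, ht y hy x hx z hz h (hs z hz x hx hzx)⟩
  have key : (∑ x ∈ V, ∑ y ∈ V, if r x y then c x * (starRingEnd ℂ) (c y) * u x y else 0) =
      ∑ z ∈ V, (((V.filter (fun y => r y z)).card : ℝ)⁻¹ : ℝ) *
        ((∑ x ∈ V.filter (fun x => r x z), c x * u x z) *
          (starRingEnd ℂ) (∑ x ∈ V.filter (fun x => r x z), c x * u x z)) := by
    have h1 : ∀ z ∈ V, ((((V.filter (fun y => r y z)).card : ℝ)⁻¹ : ℝ) : ℂ) *
        ((∑ x ∈ V.filter (fun x => r x z), c x * u x z) *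
          (starRingEnd ℂ) (∑ x ∈ V.filter (fun x => r x z), c x * u x z)) =
        ∑ x ∈ V, ∑ y ∈ V, if r x z ∧ r y z then
          ((((V.filter (fun w => r w z)).card : ℝ)⁻¹ : ℝ) : ℂ) *
            (c x * (starRingEnd ℂ) (c y) * u x y) else 0 := by
      intro z hz
      rw [map_sum, sum_mul_sum, mul_sum, sum_filter]
      refine sum_congr rfl fun x hx => ?_
      by_cases hxz : r x z
      · rw [if_pos hxz, mul_sum, sum_filter]
        refine sum_congr rfl fun y hy => ?_
        by_cases hyz : r y z
        · rw [if_pos hyz, if_pos ⟨hxz, hyz⟩, map_mul, hu x hx y hy z hz hxz hyz]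
          ring
        · rw [if_neg hyz, if_neg (fun h => hyz h.2)]
      · rw [if_neg hxz]
        symm
        refine sum_eq_zero fun y _ => ?_
        rw [if_neg (fun h => hxz h.1)]
    rw [sum_congr rfl h1]
    symm
    rw [sum_comm]
    refine sum_congr rfl fun x hx => ?_
    rw [sum_comm]
    refine sum_congr rfl fun y hy => ?_
    symm
    by_cases hxy : r x y
    · rw [if_pos hxy]
      have h2 : ∀ z ∈ V, (if r x z ∧ r y z then
          ((((V.filter (fun w => r w z)).card : ℝ)⁻¹ : ℝ) : ℂ) *
            (c x * (starRingEnd ℂ) (c y) * u x y) else 0) =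
          if r z x then ((((V.filter (fun w => r w x)).card : ℝ)⁻¹ : ℝ) : ℂ) *
            (c x * (starRingEnd ℂ) (c y) * u x y) else 0 := by
        intro z hz
        by_cases hzx : r z x
        · have hxz := hs z hz x hx hzx
          have hyz := ht y hy x hx z hz (hs x hx y hy hxy) hxz
          rw [if_pos ⟨hxz, hyz⟩, if_pos hzx, hcard x hx z hz hzx]
        · rw [if_neg hzx, if_neg]
          rintro ⟨h, _⟩
          exact hzx (hs x hx z hz h)
      rw [sum_congr rfl h2, ← sum_filter, sum_const, nsmul_eq_mul, ← mul_assoc]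
      have h3 : (((V.filter (fun z => r z x)).card : ℕ) : ℂ) *
          ((((V.filter (fun w => r w x)).card : ℝ)⁻¹ : ℝ) : ℂ) = 1 := by
        have := (hn x hx).ne'
        push_cast
        rw [mul_inv_cancel₀]
        exact_mod_cast this
      rw [h3, one_mul]
    · rw [if_neg hxy]
      symm
      refine sum_eq_zero fun z hz => ?_
      rw [if_neg]
      rintro ⟨h, h'⟩
      exact hxy (ht x hx z hz y hy h (hs y hy z hz h'))
  rw [key, Complex.re_sum]
  refine sum_nonneg fun z hz => ?_
  rw [Complex.mul_conj, ← Complex.ofReal_mul, Complex.ofReal_re]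
  exact mul_nonneg (inv_nonneg.mpr (hn z hz).le) (Complex.normSq_nonneg _)

end

/-- LAS: positivity on squares of functions of block degree less than `t`. -/
theorem las (p B d : ℕ) [hp : Fact p.Prime] (S : Loc p B d) (t : ℕ) (ht : 2 * (t - 1) ≤ d)
    (q : (Fin B → ZMod p) → ℝ) (hq : Low t q) : 0 ≤ ∑ z, PDz S z * q z ^ 2 := by
  classical
  obtain ⟨c, hc, hqz⟩ := low_fourier t q hq
  have h1 : ∑ z, PDz S z * q z ^ 2 =
      (∑ z, (∑ l ∈ S.La, ZMod.stdAddChar (ip l z - S.ga l) : ℂ) *
        ((q z : ℂ) * (starRingEnd ℂ) (q z : ℂ))).re := by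
    rw [Complex.re_sum]
    refine sum_congr rfl fun z _ => ?_
    rw [Complex.mul_conj, Complex.normSq_ofReal, Complex.re_mul_ofReal, Complex.re_sum]
    unfold PDz
    ring
  set V : Finset (Fin B → ZMod p) := univ.filter (fun l => (supp l).card < t) with hV
  have h0 : ∀ l, l ∉ V → c l = 0 := by
    intro l hl
    by_contra h
    exact hl (by simp [hV, hc l h])
  have hqV : ∀ z, ((q z : ℝ) : ℂ) = ∑ l ∈ V, c l * ch l z := by
    intro z
    rw [hqz z]
    symm
    apply sum_subset (subset_univ _)
    intro l _ hl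
    rw [h0 l hl, zero_mul]
  have h2 : (∑ z, (∑ l ∈ S.La, ZMod.stdAddChar (ip l z - S.ga l) : ℂ) *
        ((q z : ℂ) * (starRingEnd ℂ) (q z : ℂ))) =
      (p : ℂ) ^ B * ∑ x ∈ V, ∑ y ∈ V, if y - x ∈ S.La then
        c x * (starRingEnd ℂ) (c y) * ZMod.stdAddChar (- S.ga (y - x)) else 0 := by
    calc (∑ z, (∑ l ∈ S.La, ZMod.stdAddChar (ip l z - S.ga l) : ℂ) *
        ((q z : ℂ) * (starRingEnd ℂ) (q z : ℂ)))
        = ∑ z, ∑ l ∈ S.La, ∑ x ∈ V, ∑ y ∈ V,
            c x * (starRingEnd ℂ) (c y) * ZMod.stdAddChar (- S.ga l) * ch (l + x - y) z := by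
          refine sum_congr rfl fun z _ => ?_
          rw [sum_mul]
          refine sum_congr rfl fun l _ => ?_
          rw [hqV z, map_sum, sum_mul_sum, mul_sum]
          refine sum_congr rfl fun x _ => ?_
          rw [mul_sum]
          refine sum_congr rfl fun y _ => ?_
          rw [map_mul, conj_ch, sub_eq_add_neg, AddChar.map_add_eq_mul]
          have h3 : ch (l + x - y) z = ZMod.stdAddChar (ip l z) * ch x z * ch (-y) z := by
            rw [sub_eq_add_neg, ch_add_left, ch_add_left]
            rfl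
          rw [h3]
          ring
      _ = ∑ x ∈ V, ∑ y ∈ V, ∑ l ∈ S.La,
            c x * (starRingEnd ℂ) (c y) * ZMod.stdAddChar (- S.ga l) * ∑ z, ch (l + x - y) z := by
          simp only [mul_sum]
          rw [sum_comm]
          rw [sum_comm' (s := S.La) (t := fun _ => univ) (t' := univ) (s' := fun _ => S.La)
            (by simp)]
          rw [sum_comm]
          simp only [sum_comm (s := univ) (t := V)]
          rw [sum_comm]
          refine sum_congr rfl fun x _ => ?_
          rw [sum_comm]
          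
      _ = _ := by
          rw [mul_sum]
          refine sum_congr rfl fun x _ => ?_
          rw [mul_sum]
          refine sum_congr rfl fun y _ => ?_
          have h4 : ∀ l ∈ S.La, c x * (starRingEnd ℂ) (c y) * ZMod.stdAddChar (- S.ga l) *
              ∑ z, ch (l + x - y) z = if l = y - x then
                (p : ℂ) ^ B * (c x * (starRingEnd ℂ) (c y) * ZMod.stdAddChar (- S.ga (y - x)))
                else 0 := by
            intro l _
            rw [sum_ch]
            by_cases h : l = y - x
            · rw [if_pos h, if_pos (by rw [h]; abel), h]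
              ring
            · rw [if_neg h, if_neg, mul_zero]
              intro h'
              apply h
              rw [eq_sub_iff_add_eq]
              exact sub_eq_zero.mp h'
          rw [sum_congr rfl h4, sum_ite_eq']
          by_cases h : y - x ∈ S.La
          · rw [if_pos h, if_pos h]
          · rw [if_neg h, if_neg h, mul_zero]
  rw [h1, h2]
  have hpB : ((p : ℂ) ^ B) = (((p : ℝ) ^ B : ℝ) : ℂ) := by push_cast; rfl
  rw [hpB, Complex.re_ofReal_mul]
  refine mul_nonneg (by positivity) ?_
  have hsup : ∀ x ∈ V, ∀ y ∈ V, (supp (y - x)).card ≤ d := by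
    intro x hx y hy
    have hx' : (supp x).card < t := by simpa [hV] using hx
    have hy' : (supp y).card < t := by simpa [hV] using hy
    have hsub : supp (y - x) ⊆ supp y ∪ supp x := by
      intro i hi
      simp only [supp, mem_filter, mem_univ, true_and, Pi.sub_apply, mem_union] at hi ⊢
      by_contra hc
      push Not at hc
      exact hi (by rw [hc.1, hc.2, sub_zero])
    have := (card_le_card hsub).trans (card_union_le _ _)
    omega
  refine cocycle_nonneg V (fun x y => y - x ∈ S.La) c (fun x y => ZMod.stdAddChar (- S.ga (y - x)))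
    ?_ ?_ ?_ ?_
  · intro x _
    simpa using S.zero_mem
  · intro x _ y _ h
    have := S.neg_mem _ h
    rwa [neg_sub] at this
  · intro x hx y _ z hz h h'
    have e : z - x = (z - y) + (y - x) := by abel
    rw [e]
    exact S.add_mem _ h' _ h (by rw [← e]; exact hsup x hx z hz)
  · intro x hx y hy z hz h h'
    have hga : S.ga (z - x) = S.ga (z - y) + S.ga (y - x) := by
      have e : z - x = (z - y) + (y - x) := by abel
      have hyx : y - x ∈ S.La := by
        have e' : y - x = (z - x) + (-(z - y)) := by abel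
        rw [e']
        exact S.add_mem _ h _ (S.neg_mem _ h') (by rw [← e']; exact hsup x hx y hy)
      rw [e]
      exact S.add_ga _ h' _ hyx (by rw [← e]; exact hsup x hx z hz)
    rw [conj_std, ← AddChar.map_add_eq_mul, hga]
    congr 1
    ring

end Pool.Agent.H73.OX
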