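import Pool.Agent.H96.KX.Stmt

/-!
# Exponential lower bounds for LP relaxations of k-SAT, every `k ≥ 3`, best gap (MP_c62aed_lc)
-/

namespace Pool.Agent.H73.OX

open Pool.Agent.H1.LP (Clause viol Relax)
open Pool.Agent.H96.KX (Refuted)

open Classical in
/-- Every clause width `k ≥ 3`.  For every `ε > 0` there are a density `K` and `γ > 0` such that for
all large `n` there is a finite list of CNFs with `n` variables, at most `K n` clauses, all of width
exactly `k`, every assignment violating at least `(1 - ε) m / 2 ^ k` of the `m` clauses, with the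
property: every family of linear programming relaxations on cells of the cube, fixed in advance,
with at most `2 ^ (γ n)` inequalities in total, refutes at most a fraction `2 ^ (- γ n)` of the list
with margin `2 ^ (- γ n)`. -/
def Statement : Prop :=
  ∀ (k : ℕ) (ε : ℝ), 3 ≤ k → 0 < ε → ∃ (K : ℕ) (γ : ℝ), 0 < γ ∧ ∃ n₀ : ℕ, ∀ n : ℕ, n₀ ≤ n →
    ∃ (Y : ℕ) (m : Fin Y → ℕ) (phi : (a : Fin Y) → Fin (m a) → Clause n), 0 < Y ∧
      (∀ a, 1 ≤ m a ∧ m a ≤ K * n ∧
        (∀ i, (phi a i).card = k ∧ ((phi a i).image Prod.fst).card = k) ∧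
        ∀ x, (1 - ε) * ((m a : ℝ) / 2 ^ k) ≤ (viol (phi a) x : ℝ)) ∧
      ∀ (M : ℕ) (P : Fin M → Relax n),
        ∑ j, (((P j).size : ℝ) + 1) ≤ (2 : ℝ) ^ (γ * n) →
        ((Finset.univ.filter (fun a => Refuted P (phi a) ((2 : ℝ) ^ (-(γ * n))))).card : ℝ) ≤
          (2 : ℝ) ^ (-(γ * n)) * Y

end Pool.Agent.H73.OX
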