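import Pool.Agent.H96.KX.Targets
import Pool.Agent.H73.OX.Stmt

/-!
# MP_c62aed_lc: LP relaxations for k-SAT, every `k ≥ 3`: targets (helper73)

The outer system is a sparse random system over `ZMod 2` with `k` variables in every equation, the
gadget is the index gadget `idx q a u = u a` with a constant `q`.
-/

namespace Pool.Agent.H73.OX

open Finset
open Pool.Agent.H1.LP (Clause viol Relax Loc Sys supp ip comb S_SMALL S_LOC S_LPC)
open Pool.Agent.H96.KX (PairInd Refuted PDz S_BIP S_BIZ S_MAS S_PDA S_PDP S_ABS)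

/-! ## the outer system -/

/-- CNX: number of tables whose rows in `I` lie in `V` -/
def S_CNX : Prop :=
  ∀ (R k N : ℕ) (I : Finset (Fin R)) (V : Finset (Fin N)),
    (univ.filter (fun f : Fin R → Fin k → Fin N => ∀ i ∈ I, ∀ r, f i r ∈ V)).card *
      N ^ (k * I.card) = N ^ (k * R) * V.card ^ (k * I.card)

/-- NUX -/
def S_NUX : Prop :=
  ∀ (k C E₀ : ℕ), 3 ≤ k → 1 ≤ C → ∃ E : ℕ, E₀ ≤ E ∧ 1 ≤ E ∧ ∀ N s : ℕ, 1 ≤ s → E * s ≤ 2 * N →
    (C * N).choose s * N.choose ((2 * k + 1) * s / 4) * ((2 * k + 1) * s / 4) ^ (k * s) * 2 ^ s ≤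
      N ^ (k * s)

/-- WID: `S_CNX → S_NUX → S_WID`; medium sets of equations have many variables -/
def S_WID : Prop :=
  ∀ (k C E₀ : ℕ), 3 ≤ k → 1 ≤ C → ∃ E : ℕ, E₀ ≤ E ∧ 1 ≤ E ∧ ∀ N : ℕ, E ≤ N →
    ∃ T : Fin (C * N) → Finset (Fin N), (∀ i, (T i).card = k) ∧
      ∀ I : Finset (Fin (C * N)), N / E < I.card → I.card ≤ 2 * (N / E) →
        (2 * k + 1) * I.card < 4 * (I.biUnion T).card

/-- UNQ: unique neighbours -/
def S_UNQ : Prop :=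
  ∀ (k R N : ℕ) (T : Fin R → Finset (Fin N)) (c : Fin R → ZMod 2), (∀ i, (T i).card = k) →
    (2 * k + 1) * (supp c).card < 4 * ((supp c).biUnion T).card →
    (supp c).card < 2 * (supp (comb (fun i j => if j ∈ T i then (1 : ZMod 2) else 0) c)).card

/-- CHE: Chernoff bound for the number of small subsets -/
def S_CHE : Prop :=
  ∀ (ι : Type) [Fintype ι] [DecidableEq ι] (δ : ℝ), 0 ≤ δ →
    ((univ.filter (fun s : Finset ι => (s.card : ℝ) ≤ (1 / 2 - δ) * Fintype.card ι)).card : ℝ) ≤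
      2 ^ Fintype.card ι * Real.exp (-(2 * δ ^ 2 * Fintype.card ι))

/-- FARX: `S_CHE → S_FARX`; a right hand side, zero on `U`, far from all `A z` -/
def S_FARX : Prop :=
  ∀ ε : ℝ, 0 < ε → ∃ C : ℕ, 1 ≤ C ∧ ∀ (N : ℕ) (A : Fin (C * N) → Fin N → ZMod 2)
    (U : Finset (Fin (C * N))), 1 ≤ N → (U.card : ℝ) ≤ ε * N →
    ∃ be : Fin (C * N) → ZMod 2, (∀ i ∈ U, be i = 0) ∧
      ∀ z : Fin N → ZMod 2, (1 / 2 - ε) * ((C : ℝ) * N) ≤
        ((univ.filter (fun i => ip (A i) z ≠ be i)).card : ℝ)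

/-- BASX: `S_WID → S_UNQ → S_SMALL → S_FARX → S_BASX`; the outer system -/
def S_BASX : Prop :=
  ∀ (k : ℕ) (ε : ℝ), 3 ≤ k → 0 < ε → ∃ C E : ℕ, 1 ≤ C ∧ 1 ≤ E ∧ ∀ N : ℕ, E ≤ N →
    ∃ (T : Fin (C * N) → Finset (Fin N)) (Y : Sys 2 N (C * N) (N / E) (N / E / 2)),
      (∀ i, (T i).card = k) ∧ (∀ i j, Y.A i j = if j ∈ T i then 1 else 0) ∧
      ∀ z : Fin N → ZMod 2, (1 / 2 - ε) * ((C : ℝ) * N) ≤
        ((univ.filter (fun i => ip (Y.A i) z ≠ Y.be i)).card : ℝ)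

/-- LAV: the pseudo-density gives mass zero to the set where an equation is violated -/
def S_LAV : Prop :=
  ∀ (p B d : ℕ) [Fact p.Prime] (S : Loc p B d), ∀ l ∈ S.La,
    ∑ z : Fin B → ZMod p, (if ip l z ≠ S.ga l then PDz S z else 0) = 0

/-! ## the gadget and the formulas -/

/-- the index gadget -/
def idx (q : ℕ) (a : Fin q) (u : Fin q → ZMod 2) : ZMod 2 := u a

/-- IDX -/
def S_IDX : Prop := ∀ q : ℕ, PairInd (idx q)

/-- `Bool` to `ZMod 2` -/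
def bz (b : Bool) : ZMod 2 := if b = true then 1 else 0

/-- the possible clauses: an equation, and indices and values for its variables (`o` outside) -/
def prx {N R q : ℕ} (o : Fin q × Bool) (T : Fin R → Finset (Fin N)) :
    Finset (Fin R × (Fin N → Fin q × Bool)) :=
  univ.filter (fun c => ∀ j, j ∉ T c.1 → c.2 j = o)

/-- NPX: the number of possible clauses -/
def S_NPX : Prop :=
  ∀ (N R q k : ℕ) (o : Fin q × Bool) (T : Fin R → Finset (Fin N)), (∀ i, (T i).card = k) →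
    (prx o T).card = R * (2 * q) ^ k

/-- ENX: encoding of the blocks by Boolean variables, one variable for every index -/
def S_ENX : Prop :=
  ∀ (n N q : ℕ), N * q ≤ n →
    ∃ (asg : (Fin N → Fin q → ZMod 2) → (Fin n → Bool))
      (dec : (Fin n → Bool) → (Fin N → Fin q → ZMod 2))
      (cl : Finset (Fin N) → (Fin N → Fin q × Bool) → Clause n),
      (∀ x, dec (asg x) = x) ∧
      (∀ T v y, (cl T v).Sat y ↔ ∃ i ∈ T, dec y i (v i).1 ≠ bz (v i).2) ∧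
      ∀ T v, (cl T v).card = T.card ∧ ((cl T v).image Prod.fst).card = T.card

/-- XFR: the formula of a table `a`, and sums over its clauses -/
def S_XFR : Prop :=
  ∀ (N R q k n : ℕ) (o : Fin q × Bool) (T : Fin R → Finset (Fin N)) (be : Fin R → ZMod 2)
    (a : Fin N → Fin q) (dec : (Fin n → Bool) → (Fin N → Fin q → ZMod 2))
    (cl : Finset (Fin N) → (Fin N → Fin q × Bool) → Clause n),
    1 ≤ k → (∀ i, (T i).card = k) →
    (∀ T v y, (cl T v).Sat y ↔ ∃ i ∈ T, dec y i (v i).1 ≠ bz (v i).2) →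
    ∃ (m : ℕ) (phi : Fin m → Clause n), m = R * 2 ^ (k - 1) ∧
      (∀ i, ∃ c ∈ prx o T, phi i = cl (T c.1) c.2) ∧
      (∀ g : Clause n → ℝ, ∑ i, g (phi i) =
        ∑ c ∈ (prx o T).filter (fun c => (∀ j ∈ T c.1, (c.2 j).1 = a j) ∧
          ∑ j ∈ T c.1, bz (c.2 j).2 ≠ be c.1), g (cl (T c.1) c.2)) ∧
      ∀ y, viol phi y = (univ.filter (fun i => ∑ j ∈ T i, dec y j (a j) ≠ be i)).card

/-! ## assembly -/

/-- XCO: the core inequality; `S_BASX → S_LOC → S_IDX → S_BIP → S_BIZ → S_MAS → S_PDA → S_PDP →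
S_ABS → S_LPC → S_NPX → S_ENX → S_XFR → S_XCO` -/
def S_XCO : Prop :=
  ∀ (k : ℕ) (ε : ℝ), 3 ≤ k → 0 < ε → ∃ C E : ℕ, 1 ≤ C ∧ 1 ≤ E ∧
    ∀ (q n N : ℕ), 4 ≤ q → E ≤ N → k ≤ N / E / 2 → N * q ≤ n →
    ∃ (Y : ℕ) (m : Fin Y → ℕ) (phi : (a : Fin Y) → Fin (m a) → Clause n), 0 < Y ∧
      (∀ a, 1 ≤ m a ∧ m a ≤ C * N * 2 ^ k ∧
        (∀ i, (phi a i).card = k ∧ ((phi a i).image Prod.fst).card = k) ∧
        ∀ x, (1 - ε) * ((m a : ℝ) / 2 ^ k) ≤ (viol (phi a) x : ℝ)) ∧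
      ∀ (M : ℕ) (P : Fin M → Relax n) (A : Finset (Fin Y)) (de : ℝ), 0 < de →
        (∀ a ∈ A, Refuted P (phi a) de) →
        de ^ 2 * A.card * ((q : ℝ) / 4) ^ (N / E / 2) ≤
          9 * (C * N * (2 * q) ^ k) ^ 2 * 16 ^ N * (∑ j, (((P j).size : ℝ) + 1)) * Y

/-- XPA: choice of the parameters -/
def S_XPA : Prop :=
  ∀ (k C E : ℕ), 1 ≤ C → 1 ≤ E → ∃ (q K : ℕ) (γ : ℝ), 4 ≤ q ∧ 0 < γ ∧
    ∃ n₀ : ℕ, ∀ n : ℕ, n₀ ≤ n → ∃ N : ℕ, E ≤ N ∧ k ≤ N / E / 2 ∧ N * q ≤ n ∧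
      C * N * 2 ^ k ≤ K * n ∧
      ∀ (W c Y : ℝ), 0 ≤ Y → W ≤ (2 : ℝ) ^ (γ * n) →
        ((2 : ℝ) ^ (-(γ * n))) ^ 2 * c * ((q : ℝ) / 4) ^ (N / E / 2) ≤
          9 * (C * N * (2 * q) ^ k) ^ 2 * 16 ^ N * W * Y →
        c ≤ (2 : ℝ) ^ (-(γ * n)) * Y

/-- XFIN: `S_XCO → S_XPA → Statement` -/
def S_XFIN : Prop := S_XCO → S_XPA → Statement

end Pool.Agent.H73.OX
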