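import Pool.Agent.H96.KX.Targets
import Pool.Agent.H73.OX.Targets
import Pool.Agent.H49.SDP.Step

/-!
# Orthonormal bases with a constant first vector, and the hash functions, in the form of the SDP
core (helper73, MP_c62aed_lc)
-/

namespace Pool.Agent.H73.OX

open Finset Pool.Agent.H96.KX Pool.Agent.H49.SDP

/-- an orthonormal basis of the functions on a finite set which contains the constant `1` -/
theorem exists_bas (Sg : Type) [Fintype Sg] [DecidableEq Sg] [Nonempty Sg] :
    Nonempty (Bas Sg Sg) := by
  obtain ⟨o⟩ := ‹Nonempty Sg›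
  have hn : (0 : ℝ) < Fintype.card Sg := by
    have : 0 < Fintype.card Sg := Fintype.card_pos_iff.mpr ⟨o⟩
    exact_mod_cast this
  have hs : 0 < Real.sqrt (Fintype.card Sg) := Real.sqrt_pos.mpr hn
  have hss : Real.sqrt (Fintype.card Sg) * Real.sqrt (Fintype.card Sg) = Fintype.card Sg :=
    Real.mul_self_sqrt hn.le
  let v : Sg → EuclideanSpace ℝ Sg := fun _ =>
    WithLp.toLp 2 (fun _ => (Real.sqrt (Fintype.card Sg))⁻¹)
  have hv : Orthonormal ℝ (({o} : Set Sg).domRestrict v) := by
    rw [orthonormal_iff_ite]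
    rintro ⟨x, hx⟩ ⟨y, hy⟩
    rw [Set.mem_singleton_iff] at hx hy
    subst hx hy
    rw [if_pos rfl, PiLp.inner_apply]
    have h0 : ∀ z : Sg, inner ℝ ((({y} : Set Sg).domRestrict v ⟨y, hx⟩) z)
        ((({y} : Set Sg).domRestrict v ⟨y, hy⟩) z) = (Fintype.card Sg : ℝ)⁻¹ := by
      intro z
      rw [RCLike.inner_apply, conj_trivial, ← hss, mul_inv]
      rfl
    rw [Finset.sum_congr rfl fun z _ => h0 z, Finset.sum_const, card_univ, nsmul_eq_mul,
      mul_inv_cancel₀ hn.ne']
  obtain ⟨b, hb⟩ := hv.exists_orthonormalBasis_extension_of_card_eq (by simp)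
  refine ⟨⟨fun κ z => Real.sqrt (Fintype.card Sg) * b κ z, o, ?_, ?_, ?_⟩⟩
  · intro z
    rw [hb o (Set.mem_singleton o)]
    simp only [v]
    exact mul_inv_cancel₀ hs.ne'
  · intro κ κ'
    have h1 := b.orthonormal
    rw [orthonormal_iff_ite] at h1
    have h2 := h1 κ κ'
    rw [PiLp.inner_apply] at h2
    simp only [RCLike.inner_apply, conj_trivial] at h2
    have h3 : ∑ z, Real.sqrt (Fintype.card Sg) * b κ z * (Real.sqrt (Fintype.card Sg) * b κ' z) =
        Fintype.card Sg * ∑ z, b κ' z * b κ z := by
      rw [mul_sum]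
      refine sum_congr rfl fun z _ => ?_
      linear_combination (b κ' z * b κ z) * hss
    rw [h3, h2]
    split_ifs <;> ring
  · intro z z'
    have h1 := b.sum_inner_mul_inner (EuclideanSpace.single z (1 : ℝ))
      (EuclideanSpace.single z' (1 : ℝ))
    have h4 : ∀ κ, inner ℝ (EuclideanSpace.single z (1 : ℝ)) (b κ) *
        inner ℝ (b κ) (EuclideanSpace.single z' (1 : ℝ)) = b κ z * b κ z' := by
      intro κ
      rw [EuclideanSpace.inner_single_left, EuclideanSpace.inner_single_right]
      simp
    rw [sum_congr rfl fun κ _ => h4 κ] at h1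
    have h3 : ∑ κ, Real.sqrt (Fintype.card Sg) * b κ z * (Real.sqrt (Fintype.card Sg) * b κ z') =
        Fintype.card Sg * ∑ κ, b κ z * b κ z' := by
      rw [mul_sum]
      refine sum_congr rfl fun κ _ => ?_
      linear_combination (b κ z * b κ z') * hss
    rw [h3, h1, EuclideanSpace.inner_single_left]
    by_cases h : z = z'
    · subst h
      simp
    · have : z' ≠ z := fun h' => h h'.symm
      simp [h]

/-- all fibres of a surjective homomorphism have the same size -/
theorem card_fibre {U W : Type} [AddGroup U] [AddGroup W] [Fintype U] [Fintype W]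
    [DecidableEq W] (f : U →+ W) (hf : Function.Surjective f) (w : W) :
    (univ.filter (fun u => f u = w)).card * Fintype.card W = Fintype.card U := by
  classical
  have h1 : Fintype.card U = ∑ w', (univ.filter (fun u => f u = w')).card := by
    rw [← card_univ]
    exact card_eq_sum_card_fiberwise (fun _ _ => mem_univ _)
  have h2 : ∀ w', (univ.filter (fun u => f u = w')).card = (univ.filter (fun u => f u = w)).card :=
    fun w' => AddMonoidHom.card_fiber_eq_of_mem_range f (hf w') (hf w)
  rw [h1, sum_congr rfl fun w' _ => h2 w', sum_const, card_univ, smul_eq_mul, mul_comm]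

/-- hash functions from surjective homomorphisms -/
theorem hsh_of {H U Z : Type} [AddGroup U] [AddGroup Z] [Fintype U] [Fintype Z]
    [DecidableEq Z] (h : H → U →+ Z) (h1 : ∀ a, Function.Surjective (h a))
    (h2 : ∀ a a', a ≠ a' → Function.Surjective (fun u => (h a u, h a' u))) :
    ∃ hh : Hsh H U Z, ∀ a u, hh.ap a u = h a u := by
  refine ⟨⟨fun a u => h a u, ?_, ?_⟩, fun a u => rfl⟩
  · intro a z
    have h3 := card_fibre (h a) (h1 a) z
    rw [sum_boole, ← h3]
    push_cast
    ring
  · intro a a' haa z
    have gen : ∀ z z' : Z, (Fintype.card Z : ℝ) ^ 2 *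
        ∑ b, (if h a b = z then (1 : ℝ) else 0) * (if h a' b = z' then 1 else 0) =
          Fintype.card U := by
      intro z z'
      have h3 := card_fibre ((h a).prod (h a')) (h2 a a' haa) (z, z')
      have h4 : ∑ b, (if h a b = z then (1 : ℝ) else 0) * (if h a' b = z' then 1 else 0) =
          ((univ.filter (fun u => ((h a).prod (h a')) u = (z, z'))).card : ℝ) := by
        rw [← sum_boole]
        refine sum_congr rfl fun b _ => ?_
        by_cases h5 : h a b = z
        · by_cases h6 : h a' b = z'
          · have h7 : ((h a).prod (h a')) b = (z, z') := by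
              rw [AddMonoidHom.prod_apply, h5, h6]
            rw [if_pos h5, if_pos h6, if_pos h7, mul_one]
          · have h7 : ((h a).prod (h a')) b ≠ (z, z') := by
              rw [AddMonoidHom.prod_apply]
              intro h8
              exact h6 (Prod.mk.inj h8).2
            rw [if_neg h6, if_neg h7, mul_zero]
        · have h7 : ((h a).prod (h a')) b ≠ (z, z') := by
            rw [AddMonoidHom.prod_apply]
            intro h8
            exact h5 (Prod.mk.inj h8).1
          rw [if_neg h5, if_neg h7, zero_mul]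
      rw [h4, ← h3, Fintype.card_prod]
      push_cast
      ring
    exact gen z z

/-- the hash functions of the large alphabet -/
theorem exists_hsh (p L : ℕ) [hp : Fact p.Prime] :
    ∃ hh : Hsh (Fin L → ZMod p) (Fin (L + 1) → ZMod p) (ZMod p), ∀ a u, hh.ap a u = hsh p L a u := by
  let h : (Fin L → ZMod p) → (Fin (L + 1) → ZMod p) →+ ZMod p := fun a =>
    { toFun := hsh p L a
      map_zero' := by simp [hsh]
      map_add' := by
        intro u u'
        simp only [hsh, Pi.add_apply, mul_add, sum_add_distrib]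
        abel }
  have key : ∀ (a : Fin L → ZMod p) (i : Fin L) (x y : ZMod p),
      h a (Fin.cons x (Pi.single i y)) = x + a i * y := by
    intro a i x y
    change hsh p L a _ = _
    unfold hsh
    rw [Fin.cons_zero]
    congr 1
    rw [Finset.sum_eq_single i]
    · rw [Fin.cons_succ, Pi.single_eq_same]
    · intro j _ hj
      rw [Fin.cons_succ, Pi.single_eq_of_ne hj, mul_zero]
    · simp
  obtain ⟨hh, hh1⟩ := hsh_of h (fun a z => ⟨Fin.cons z 0, by
    change hsh p L a _ = _
    simp [hsh]⟩) (by
    intro a a' haa ⟨z, z'⟩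
    obtain ⟨i, hi⟩ := Function.ne_iff.mp haa
    have hi' : a i - a' i ≠ 0 := sub_ne_zero.mpr hi
    refine ⟨Fin.cons (z - a i * ((z - z') / (a i - a' i))) (Pi.single i ((z - z') / (a i - a' i))),
      ?_⟩
    rw [Prod.mk.injEq, key, key]
    refine ⟨by ring, ?_⟩
    field_simp
    ring)
  exact ⟨hh, hh1⟩

/-- the index gadget -/
theorem exists_hsh_idx (q : ℕ) :
    ∃ hh : Hsh (Fin q) (Fin q → ZMod 2) (ZMod 2), ∀ a u, hh.ap a u = u a := by
  let h : Fin q → (Fin q → ZMod 2) →+ ZMod 2 := fun a => Pi.evalAddMonoidHom _ a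
  obtain ⟨hh, hh1⟩ := hsh_of h (fun a z => ⟨fun _ => z, rfl⟩) (by
    intro a a' haa ⟨z, z'⟩
    refine ⟨fun i => if i = a then z else z', ?_⟩
    change ((if a = a then z else z'), (if a' = a then z else z')) = (z, z')
    rw [if_pos rfl, if_neg (fun h => haa h.symm)])
  exact ⟨hh, hh1⟩

end Pool.Agent.H73.OX
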